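import Pool.Agent.N290.RJ.Stm

/-!
# Estimate at the centre of the ball, from the one-variable lemma and the slices

Project RJ (helper290), part C2 (helper717; the model is the file of helper507 for project RI).
-/

set_option autoImplicit false

open Complex MeasureTheory Set Filter Topology
open scoped ENNReal

namespace Pool.Agent.N717.RJ

open Pool.Agent.N290.RJ

noncomputable section

variable {d : ℕ}

/-- the radius of the slice -/
def rs (s : Fin d → ℂ) : ℝ := (Real.sqrt (1 + ∑ i, ‖s i‖ ^ 2))⁻¹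

theorem one_add_pos (s : Fin d → ℂ) : 0 < 1 + ∑ i, ‖s i‖ ^ 2 := by positivity

theorem rs_pos (s : Fin d → ℂ) : 0 < rs s := inv_pos.2 (Real.sqrt_pos.2 (one_add_pos s))

theorem rs_sq (s : Fin d → ℂ) : (1 + ∑ i, ‖s i‖ ^ 2) * rs s ^ 2 = 1 := by
  have h := one_add_pos s
  rw [rs, inv_pow, Real.sq_sqrt h.le, mul_inv_cancel₀ h.ne']

/-- the slice -/
def Lm (s : Fin d → ℂ) : ℂ →L[ℝ] E d :=
  (ContinuousLinearMap.id ℝ ℂ).prod
    ((ContinuousLinearMap.smulRight (ContinuousLinearMap.id ℂ ℂ) s).restrictScalars ℝ)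

theorem Lm_apply (s : Fin d → ℂ) (τ : ℂ) : Lm s τ = (τ, τ • s) := rfl

theorem N_mk (s : Fin d → ℂ) (τ : ℂ) :
    N ((τ, τ • s) : E d) = ‖τ‖ ^ 2 * (1 + ∑ i, ‖s i‖ ^ 2) := by
  simp only [N, Pi.smul_apply, smul_eq_mul, norm_mul, mul_pow]
  rw [← Finset.mul_sum]
  ring

theorem N_Lm (s : Fin d → ℂ) (τ : ℂ) : N ((τ, τ • s) : E d) * rs s ^ 2 = ‖τ‖ ^ 2 := by
  have h := rs_sq s
  rw [N_mk]
  linear_combination ‖τ‖ ^ 2 * h

theorem Lm_mem {s : Fin d → ℂ} {τ : ℂ} (hτ : τ ∈ Metric.ball (0 : ℂ) (rs s)) :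
    ((τ, τ • s) : E d) ∈ B d := by
  rw [mem_ball_zero_iff] at hτ
  rw [mem_B]
  have h1 := N_Lm s τ
  have h2 := rs_pos s
  have h3 : ‖τ‖ ^ 2 < rs s ^ 2 := by
    have := norm_nonneg τ
    nlinarith
  by_contra h4
  push Not at h4
  nlinarith [mul_le_mul_of_nonneg_right h4 (sq_nonneg (rs s))]

theorem len_Lm {s : Fin d → ℂ} {τ : ℂ} (hτ : τ ∈ Metric.ball (0 : ℂ) (rs s)) :
    len ((τ, τ • s) : E d) (1, s) = rs s / (rs s ^ 2 - ‖τ‖ ^ 2) := by
  have hB := Lm_mem hτ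
  rw [mem_ball_zero_iff] at hτ
  have h2 := rs_pos s
  have h3 : 0 < rs s ^ 2 - ‖τ‖ ^ 2 := by
    have := norm_nonneg τ
    nlinarith
  have h1 := N_Lm s τ
  have h4 := rs_sq s
  have h5 : 0 < 1 - N ((τ, τ • s) : E d) := sub_pos.2 hB
  have h6 : N (((1 : ℂ), s) : E d) = 1 + ∑ i, ‖s i‖ ^ 2 := by simp [N]
  have h7 : ip (((1 : ℂ), s) : E d) (τ, τ • s) =
      starRingEnd ℂ τ * ((1 + ∑ i, ‖s i‖ ^ 2 : ℝ) : ℂ) := by
    have h8 : ∀ i, s i * starRingEnd ℂ (s i) = ((‖s i‖ ^ 2 : ℝ) : ℂ) := fun i => mulconj (s i)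
    simp only [ip, Pi.smul_apply, smul_eq_mul, map_mul, one_mul]
    have h9 : ∑ i, s i * (starRingEnd ℂ τ * starRingEnd ℂ (s i)) =
        starRingEnd ℂ τ * ∑ i, ((‖s i‖ ^ 2 : ℝ) : ℂ) := by
      rw [Finset.mul_sum]
      refine Finset.sum_congr rfl fun i _ => ?_
      rw [← h8]
      ring
    rw [h9]
    push_cast
    ring
  have h9 : ‖ip (((1 : ℂ), s) : E d) (τ, τ • s)‖ = ‖τ‖ * (1 + ∑ i, ‖s i‖ ^ 2) := by
    rw [h7, norm_mul, Complex.norm_conj, Complex.norm_real, Real.norm_of_nonneg (one_add_pos s).le]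
  have h10 : len2 ((τ, τ • s) : E d) (1, s) = (rs s / (rs s ^ 2 - ‖τ‖ ^ 2)) ^ 2 := by
    rw [len2, h6, h9]
    have e1 : 1 + ∑ i, ‖s i‖ ^ 2 = 1 / rs s ^ 2 := by
      rw [eq_div_iff (by positivity)]
      exact h4
    have e2 : 1 - N ((τ, τ • s) : E d) = (rs s ^ 2 - ‖τ‖ ^ 2) / rs s ^ 2 := by
      rw [eq_div_iff (by positivity)]
      linear_combination -h1
    rw [e1, e2]
    field_simp
    ring
  rw [len, h10, Real.sqrt_sq (by positivity)]

theorem db1_Lm {Γ : E d → ℂ} {s : Fin d → ℂ} {τ : ℂ} (hd : DifferentiableAt ℝ Γ (τ, τ • s)) :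
    db1 (fun t => Γ (t, t • s)) τ = db Γ (τ, τ • s) (1, s) := by
  have h1 : HasFDerivAt (fun t => Γ (t, t • s)) ((fderiv ℝ Γ (τ, τ • s)).comp (Lm s)) τ :=
    HasFDerivAt.comp τ (g := Γ) (f := fun t => ((t, t • s) : E d)) hd.hasFDerivAt
      (Lm s).hasFDerivAt
  have e1 : (((1 : ℂ), (1 : ℂ) • s) : E d) = (1, s) := by rw [one_smul]
  have e2 : ((I, I • s) : E d) = I • (((1 : ℂ), s) : E d) := by
    rw [Prod.smul_mk, smul_eq_mul, mul_one]
  rw [db1, db, h1.fderiv, ContinuousLinearMap.comp_apply, ContinuousLinearMap.comp_apply,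
    Lm_apply, Lm_apply, e1, e2]

theorem vol_B_lt : volume (B d) < ⊤ := by
  have hb : Bornology.IsBounded (B d) := by
    refine (Metric.isBounded_closedBall (x := (0 : E d)) (r := 1)).subset ?_
    intro z hz
    have h4 : ‖z.1‖ ^ 2 + ∑ i, ‖z.2 i‖ ^ 2 < 1 := hz
    have h5 : 0 ≤ ∑ i, ‖z.2 i‖ ^ 2 := by positivity
    rw [mem_closedBall_zero_iff, Prod.norm_def, max_le_iff]
    constructor
    · nlinarith [norm_nonneg z.1]
    · rw [pi_norm_le_iff_of_nonneg zero_le_one]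
      intro i
      have h6 : ‖z.2 i‖ ^ 2 ≤ ∑ i, ‖z.2 i‖ ^ 2 :=
        Finset.single_le_sum (f := fun i => ‖z.2 i‖ ^ 2) (fun i _ => sq_nonneg _)
          (Finset.mem_univ i)
      nlinarith [norm_nonneg (z.2 i), sq_nonneg ‖z.1‖]
  exact hb.measure_lt_top

theorem C2_of (d : ℕ) (h1 : C1 d) (h2 : C2a d) (h3 : C2b d) : C2 d := by
  intro Γ M e hΓ hM hem he hdb
  have hint : IntegrableOn (fun ξ => Γ ξ - Γ 0) (B d) := by
    refine IntegrableOn.of_bound vol_B_lt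
      ((hΓ.continuousOn.sub continuousOn_const).aestronglyMeasurable B_meas) (M + ‖Γ 0‖) ?_
    rw [ae_restrict_iff' B_meas]
    refine Eventually.of_forall fun z hz => ?_
    exact (norm_sub_le _ _).trans (add_le_add (hM z hz) le_rfl)
  rw [h3 _ hint, h2 (fun ξ => ENNReal.ofReal (e ξ / nm ξ ^ (2 * d + 1))) (by
    refine ENNReal.measurable_ofReal.comp (hem.div ?_)
    exact (Measurable.pow_const (Real.continuous_sqrt.measurable.comp N_continuous.measurable) _))]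
  rw [ofReal_norm]
  refine (enorm_integral_le_lintegral_enorm _).trans (lintegral_mono fun s => ?_)
  rw [← ofReal_norm]
  have hmaps : MapsTo (fun t : ℂ => ((t, t • s) : E d)) (Metric.ball (0 : ℂ) (rs s)) (B d) :=
    fun τ hτ => Lm_mem hτ
  have hc : ContDiffOn ℝ 1 (fun t => Γ (t, t • s)) (Metric.ball (0 : ℂ) (rs s)) :=
    ContDiffOn.comp (g := Γ) (f := fun t => ((t, t • s) : E d)) hΓ (Lm s).contDiff.contDiffOn
      hmaps
  have h4 := h1 (fun t => Γ (t, t • s)) (rs s) M (rs_pos s) hc (fun τ hτ => hM _ (Lm_mem hτ))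
  have e0 : Γ ((0 : ℂ), (0 : ℂ) • s) = Γ 0 := by rw [zero_smul]; rfl
  simp only [e0] at h4
  refine le_trans h4 (setLIntegral_mono' measurableSet_ball fun τ hτ => ?_)
  have hd : DifferentiableAt ℝ Γ (τ, τ • s) :=
    (hΓ.contDiffAt (B_open.mem_nhds (Lm_mem hτ))).differentiableAt (by norm_num)
  have h5 : ‖db1 (fun t => Γ (t, t • s)) τ‖ ≤
      e (τ, τ • s) * (rs s / (rs s ^ 2 - ‖τ‖ ^ 2)) := by
    rw [db1_Lm hd, ← len_Lm hτ]
    exact hdb _ (Lm_mem hτ) _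
  rw [← ENNReal.ofReal_mul (by positivity)]
  refine ENNReal.ofReal_le_ofReal ?_
  have heτ := he _ (Lm_mem hτ)
  rcases eq_or_ne τ 0 with h0 | h0
  · have e3 : ‖τ‖ = 0 := by rw [h0, norm_zero]
    have e4 : ‖db1 (fun t => Γ (t, t • s)) τ‖ *
        (rs s ^ (2 * d) * (rs s ^ 2 - ‖τ‖ ^ 2) / ‖τ‖) = 0 := by
      rw [e3, div_zero, mul_zero]
    rw [e4]
    have := nm_nonneg ((τ, τ • s) : E d)
    positivity
  · have h6 : 0 < ‖τ‖ := norm_pos_iff.2 h0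
    have h7 := rs_pos s
    have hτ' := hτ
    rw [mem_ball_zero_iff] at hτ'
    have h8 : 0 < rs s ^ 2 - ‖τ‖ ^ 2 := by
      have : ‖τ‖ < rs s := hτ'
      nlinarith
    have h9 : nm ((τ, τ • s) : E d) = ‖τ‖ / rs s := by
      have h10 : N ((τ, τ • s) : E d) = (‖τ‖ / rs s) ^ 2 := by
        have := N_Lm s τ
        rw [div_pow, eq_div_iff (by positivity)]
        exact this
      rw [nm, h10, Real.sqrt_sq (by positivity)]
    rw [h9]
    calc ‖db1 (fun t => Γ (t, t • s)) τ‖ * (rs s ^ (2 * d) * (rs s ^ 2 - ‖τ‖ ^ 2) / ‖τ‖)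
        ≤ e (τ, τ • s) * (rs s / (rs s ^ 2 - ‖τ‖ ^ 2)) *
          (rs s ^ (2 * d) * (rs s ^ 2 - ‖τ‖ ^ 2) / ‖τ‖) :=
          mul_le_mul_of_nonneg_right h5 (by positivity)
      _ = ‖τ‖ ^ (2 * d) * (e (τ, τ • s) / (‖τ‖ / rs s) ^ (2 * d + 1)) := by
          rw [div_pow]
          field_simp
          rw [pow_succ ‖τ‖, pow_succ (rs s)]
          ring

end

end Pool.Agent.N717.RJ
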